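import Pool.Agent.CYL.D.H.RunL

/-!
# CYL, part D: lower bound of the masses of the runs; the mass of the runs is the mass of the systems
-/

namespace Pool.Agent.CYL.H

open Pool.Agent.Hhelper14.SAW Pool.Agent.HHP Pool.Agent.BEX Pool.Agent.QL Pool.Agent.QL.HL
open scoped ENNReal

variable {L l N : ℕ} {s s' : Fin l → Fin L}

/-- The start. -/
theorem start_LI {G : Fin l → List (CV L)} (hs : Function.Injective s) (hG : EF N s s' G) (hN : 1 ≤ N) :
    LI N s s' G (N : ℤ) (th s) (d0 N s) := by
  have hJ := start_RJ hs N (fun _ _ => True)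
  have hd0 : ∀ j, (∃ k, s k = j) → d0 N s (Sum.inl j) = [((N : ℤ), j, true)] := fun j h => by simp [d0, h]
  have hd1 : ∀ j, (¬ ∃ k, s k = j) → d0 N s (Sum.inl j) = [] := fun j h => by simp only [d0]; rw [if_neg h]
  have hd2 : ∀ k, d0 N s (Sum.inr k) = [((N : ℤ), s k, true)] := fun k => rfl
  have hocc : ∀ j, th s (Sum.inl j) ≠ Sum.inl j ↔ ∃ k, s k = j := by
    intro j
    constructor
    · intro h
      by_contra h'
      push Not at h'
      exact h (th_o h')
    · rintro ⟨k, rfl⟩
      rw [th_s hs]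
      simp
  have hmem : ∀ a v, v ∈ d0 N s a → v.1 = N := by
    rintro (j | k) v hv
    · by_cases h : ∃ k, s k = j
      · rw [hd0 j h] at hv
        simp only [List.mem_singleton] at hv
        rw [hv]
      · rw [hd1 j h] at hv
        simp at hv
    · rw [hd2] at hv
      simp only [List.mem_singleton] at hv
      rw [hv]
  refine ⟨⟨th_inv hs, hJ.dec.rev, hJ.dec.emp, ?_, ?_, ?_⟩, ?_, ?_, ?_, ?_, ?_⟩
  · rintro (j | k)
    · by_cases h : ∃ k, s k = j
      · rw [hd0 j h]; simp
      · rw [hd1 j h]; simp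
    · rw [hd2]; simp
  · intro a b hab hab' v hv hv'
    -- the label of a virtual vertex
    have key : ∀ a, v ∈ d0 N s a → ∃ k, v = ((N : ℤ), s k, true) ∧ (a = Sum.inl (s k) ∨ a = Sum.inr k) := by
      rintro (j | k) hv
      · by_cases h : ∃ k, s k = j
        · obtain ⟨k, rfl⟩ := h
          rw [hd0 _ ⟨k, rfl⟩] at hv
          simp only [List.mem_singleton] at hv
          exact ⟨k, hv, Or.inl rfl⟩
        · rw [hd1 j h] at hv
          simp at hv
      · rw [hd2] at hv
        simp only [List.mem_singleton] at hv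
        exact ⟨k, hv, Or.inr rfl⟩
    obtain ⟨k, e1, e2⟩ := key a hv
    obtain ⟨k', e3, e4⟩ := key b hv'
    have e5 : k = k' := by
      rw [e1] at e3
      exact hs (by simpa using e3)
    subst e5
    rcases e2 with rfl | rfl <;> rcases e4 with rfl | rfl
    · exact hab rfl
    · exact hab' (th_s hs k).symm
    · exact hab' rfl
    · exact hab rfl
  · rintro (j | k)
    · by_cases h : ∃ k, s k = j
      · rw [hd0 j h]; simp
      · rw [hd1 j h]; simp
    · rw [hd2]; simp
  · intro j
    rw [hocc, upF_N hG hN]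
  · intro j hj
    rw [hd0 j ((hocc j).1 hj)]
    rfl
  · intro a v hv
    rw [hmem a v hv]
  · intro i
    rw [th_r]
    simp
  · intro i
    rfl

/-- The run of a system. -/
theorem run_fam (hL : 2 ≤ L) (hN : 1 ≤ N) (hs : Function.Injective s) (hs' : Function.Injective s')
    {γ : Fin l → List (CV L)} (h : Fam N s s' γ) :
    run (Sum.inl : Fin L → Fin L ⊕ Fin l) (csl hL (fun k => ((N : ℤ), s k, true) :: γ k) N) (th s) =
      some (th s', ∑ k, (γ k).length) := by
  set G : Fin l → List (CV L) := fun k => ((N : ℤ), s k, true) :: γ k with hGdef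
  have hG : EF N s s' G := EF_of_Fam hs h
  obtain ⟨f, c, d, h1, h2, h3⟩ := run_ok hL hG N le_rfl (start_LI hs hG hN)
  have hocc : ∀ j, f (Sum.inl j) ≠ Sum.inl j ↔ ∃ k, s' k = j := by
    intro j
    rw [h2.occ]
    unfold upF
    rw [if_pos rfl]
  have hin : ∀ k, ∀ v ∈ d (Sum.inr k), v ∈ G k := by
    intro k
    refine (chain_same hG (h2.dec.ch _) ?_).2
    intro u hu
    rw [h2.hdo k] at hu
    rw [← Option.some.inj hu]
    exact List.mem_cons_self
  have hne : ∀ k, d (Sum.inr k) ≠ [] := fun k => ne_nil_of_head (h2.hdo k)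
  have fr : ∀ k, f (Sum.inr k) = Sum.inl (s' k) := by
    intro k
    rcases hf : f (Sum.inr k) with j | k'
    · have hj : f (Sum.inl j) ≠ Sum.inl j := by
        rw [← hf, h2.dec.iv, hf]
        simp
      obtain ⟨k'', rfl⟩ := (hocc j).1 hj
      have hh := h2.hd _ hj
      have hm : ((0 : ℤ), s' k'', true) ∈ d (Sum.inr k) := by
        have e1 : d (Sum.inl (s' k'')) = (d (Sum.inr k)).reverse := by rw [← hf]; exact h2.dec.rv _
        rw [e1] at hh
        have := List.mem_of_head? hh
        simpa using this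
      have h6 := hin k _ hm
      by_cases e : k'' = k
      · rw [e]
      · exfalso
        refine hG.dj k k'' (Ne.symm e) _ h6 ?_
        rw [← hG.e1 k'']
        exact List.getElem_mem _
    · exfalso
      have hk : k' ≠ k := by
        intro e
        rw [e] at hf
        exact h2.occo k hf
      have hh := h2.hdo k'
      have e1 : d (Sum.inr k') = (d (Sum.inr k)).reverse := by rw [← hf]; exact h2.dec.rv _
      rw [e1] at hh
      have hm := List.mem_of_head? hh
      simp only [List.mem_reverse] at hm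
      refine hG.dj k k' (Ne.symm hk) _ (hin k _ hm) ?_
      exact List.mem_cons_self
  have fl : ∀ k, f (Sum.inl (s' k)) = Sum.inr k := fun k => by rw [← fr k, h2.dec.iv]
  have hf : f = th s' := by
    funext a
    rcases a with j | k
    · by_cases hj : ∃ k, s' k = j
      · obtain ⟨k, rfl⟩ := hj
        rw [fl, th_s hs']
      · have e1 : f (Sum.inl j) = Sum.inl j := by
          by_contra hc
          exact hj ((hocc j).1 hc)
        push Not at hj
        rw [e1, th_o hj]
    · rw [fr, th_r]
  have hd : ∀ k, d (Sum.inr k) = G k := by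
    intro k
    refine eq_of_chain (hG.nd k) (h2.dec.nd _) ?_ ?_ ?_
    · refine (chain_same hG (h2.dec.ch _) ?_).1
      intro u hu
      rw [h2.hdo k] at hu
      rw [← Option.some.inj hu]
      exact List.mem_cons_self
    · rw [h2.hdo k, hG.hd k]
    · have hj : f (Sum.inl (s' k)) ≠ Sum.inl (s' k) := by rw [fl]; simp
      have hh := h2.hd _ hj
      have e1 : d (Sum.inl (s' k)) = (d (Sum.inr k)).reverse := by rw [← fr k]; exact h2.dec.rv _
      rw [e1, List.head?_reverse] at hh
      rw [hh, hG.ls k]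
  have hc : c = ∑ k, (γ k).length := by
    classical
    have e1 : tot d = ∑ k, 2 * ((γ k).length + 1) := by
      unfold tot
      rw [Fintype.sum_sum_type]
      have e6 : ∑ j : Fin L, (d (Sum.inl j)).length = ∑ k, ((γ k).length + 1) := by
        have e7 : ∑ j ∈ Finset.univ.image s', (d (Sum.inl j)).length = ∑ j : Fin L, (d (Sum.inl j)).length := by
          apply Finset.sum_subset (Finset.subset_univ _)
          intro j _ hj
          have : f (Sum.inl j) = Sum.inl j := by
            rw [hf]
            exact th_o fun k e => hj (by rw [← e]; exact Finset.mem_image_of_mem _ (Finset.mem_univ _))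
          rw [h2.dec.em _ this]
          rfl
        rw [← e7, Finset.sum_image fun x _ y _ h => hs' h]
        refine Finset.sum_congr rfl fun k _ => ?_
        have e8 : d (Sum.inl (s' k)) = (d (Sum.inr k)).reverse := by rw [← fr k]; exact h2.dec.rv _
        rw [e8, List.length_reverse, hd k]
        rfl
      have e8 : ∑ k, (d (Sum.inr k)).length = ∑ k, ((γ k).length + 1) :=
        Finset.sum_congr rfl fun k _ => by rw [hd k]; rfl
      rw [e6, e8, ← Finset.sum_add_distrib]
      refine Finset.sum_congr rfl fun k _ => ?_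
      ring
    have e2 : tot (d0 N s) = ∑ k : Fin l, 2 * 1 := W_d0 hs N List.length rfl
    rw [e1, e2] at h3
    have h4 : ∑ k : Fin l, 2 * ((γ k).length + 1) = 2 * (∑ k, (γ k).length) + 2 * l := by
      rw [← Finset.mul_sum, Finset.sum_add_distrib]
      simp [mul_add]
    have h5 : ∑ k : Fin l, 2 * 1 = 2 * l := by simp [mul_comm]
    rw [h4, h5] at h3
    omega
  rw [h1, hf, hc]

/-- The choices determine the used edges. -/
theorem used_eqF {G G' : Fin l → List (CV L)} (hL : 2 ≤ L) (hN : 1 ≤ N) (hG : EF N s s' G) (hG' : EF N s s' G')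
    (hau : ∀ n : ℕ, n < N → (auF hL G n 0 ↔ auF hL G' n 0))
    (hru : ∀ n : ℕ, n < N → ∀ j, (ruF G n j ↔ ruF G' n j)) (m : ℕ) :
    ∀ n : ℕ, n + m = N → (∀ j, upF G s' n j ↔ upF G' s' n j) ∧
      (n < N → ∀ k, k ≤ L → (auF hL G n k ↔ auF hL G' n k)) := by
  induction m with
  | zero =>
    intro n hn
    have hn' : n = N := by omega
    subst hn'
    refine ⟨fun j => ?_, fun h => absurd h (lt_irrefl _)⟩
    rw [upF_N hG hN, upF_N hG' hN]
  | succ m ih =>
    intro n hn
    have hnM : n < N := by omega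
    obtain ⟨hup, -⟩ := ih (n + 1) (by omega)
    have hup' : ∀ j, upF G s' ((n : ℤ) + 1) j ↔ upF G' s' ((n : ℤ) + 1) j := by
      intro j
      have := hup j
      push_cast at this
      exact this
    have hak : ∀ k, k ≤ L → (auF hL G n k ↔ auF hL G' n k) := by
      intro k
      induction k with
      | zero => intro _; exact hau n hnM
      | succ k ihk =>
        intro hk
        have d := degF2 hL hG (n := (n : ℤ)) (by omega) k
        have d' := degF2 hL hG' (n := (n : ℤ)) (by omega) k
        have r := hru n hnM (ln hL k)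
        have u := hup' (ln hL k)
        by_cases hr : ruF G n (ln hL k)
        · rw [d.1 hr, d'.1 (r.1 hr), u]
        · rw [d.2 hr, d'.2 (fun h => hr (r.2 h)), u]
    refine ⟨fun j => ?_, fun _ => hak⟩
    have d := degF1 hL hG (n := (n : ℤ)) (by omega) (by omega) (j : ℕ)
    have d' := degF1 hL hG' (n := (n : ℤ)) (by omega) (by omega) (j : ℕ)
    rw [ln_val] at d d'
    have r := hru n hnM j
    have a := hak j j.2.le
    by_cases hr : ruF G n j
    · have e1 := d.1 hr
      have e2 := d'.1 (r.1 hr)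
      exact ⟨fun h => by_contra fun h' => (e1.1 (a.2 (e2.2 h'))) h,
        fun h => by_contra fun h' => (e2.1 (a.1 (e1.2 h'))) h⟩
    · rw [← d.2 hr, ← d'.2 (fun h => hr (r.2 h)), a]

theorem nf_imp {G G' : Fin l → List (CV L)} (hL : 2 ≤ L) (hN : 1 ≤ N) (hG : EF N s s' G) (hG' : EF N s s' G')
    (hau : ∀ n : ℕ, n < N → (auF hL G n 0 ↔ auF hL G' n 0))
    (hru : ∀ n : ℕ, n < N → ∀ j, (ruF G n j ↔ ruF G' n j)) {u v : CV L} (h : NF G u v) : NF G' u v := by
  have hrow : ∀ {u v : CV L}, NF G u v → 0 ≤ u.1 ∧ u.1 ≤ N ∧ (u.1 = N → u.2.2 = true) := by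
    rintro u v ⟨k, hk⟩
    rcases hG.row hk.mem.1 with h1 | h1
    · exact ⟨h1.1, h1.2.le, fun e => absurd h1.2 (by omega)⟩
    · rw [h1]; simp
  have key : ∀ {u v : CV L}, ad1 u v → NF G u v → NF G' u v := by
    rintro ⟨a, b, c⟩ ⟨a', b', c'⟩ ⟨h1, h2, h3⟩ hn
    simp only at h1 h2 h3
    subst h1 h2
    have r1 := hrow hn
    have r2 := hrow hn.symm
    simp only [Bool.false_eq_true, imp_false] at r1 r2
    obtain ⟨n, rfl⟩ : ∃ n : ℕ, a = n := ⟨a.toNat, by omega⟩
    have hnM : n ≤ N := by omega
    obtain ⟨k1, k2⟩ := used_eqF hL hN hG hG' hau hru (N - n) n (by omega)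
    rcases h3 with ⟨h3, h4⟩ | ⟨h3, h4⟩ | ⟨h3, h4⟩
    · have hlt : n < N := by
        have : a' ≠ N := r2.2.2
        omega
      rw [h3, h4] at hn ⊢
      exact (hru n hlt b).1 hn
    · have hlt : n < N := by
        have : a' ≠ N := r2.2.2
        omega
      rw [h3] at hn ⊢
      have hb : b' = HL.lp hL (b : ℕ) := md_inj hL (by rw [h4, md_lp, ln_val])
      have h5 : auF hL G n (b : ℕ) := by
        unfold auF
        rw [ln_val, ← hb]
        exact hn.symm
      have h6 := (k2 hlt _ b.2.le).1 h5
      unfold auF at h6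
      rw [ln_val, ← hb] at h6
      exact h6.symm
    · rw [h4, h3] at hn ⊢
      have hn0 : (n : ℤ) ≠ 0 := by omega
      have h5 : upF G s' n b := by
        unfold upF
        rw [if_neg hn0]
        exact hn
      have h6 := (k1 b).1 h5
      unfold upF at h6
      rw [if_neg hn0] at h6
      exact h6
  rcases NF.ad hG h with h1 | h1
  · exact key h1 h
  · exact (key h1 h.symm).symm

theorem cho_of_csl {G G' : Fin l → List (CV L)} (hL : 2 ≤ L) (M : ℕ) (h : csl hL G M = csl hL G' M) :
    ∀ n : ℕ, n < M → cho hL G n = cho hL G' n := by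
  induction M with
  | zero => intro n hn; omega
  | succ M ih =>
    intro n hn
    rw [csl, csl, List.cons.injEq] at h
    rcases Nat.lt_or_ge n M with h1 | h1
    · exact ih h.2 n h1
    · have : n = M := by omega
      subst this
      exact h.1

theorem csl_injF {G G' : Fin l → List (CV L)} (hL : 2 ≤ L) (hN : 1 ≤ N) (hG : EF N s s' G) (hG' : EF N s s' G')
    (h : csl hL G N = csl hL G' N) : G = G' := by
  have hc := cho_of_csl hL N h
  have hau : ∀ n : ℕ, n < N → (auF hL G n 0 ↔ auF hL G' n 0) := by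
    intro n hn
    have := congrArg Prod.fst (hc n hn)
    simpa [cho] using this
  have hru : ∀ n : ℕ, n < N → ∀ j, (ruF G n j ↔ ruF G' n j) := by
    intro n hn j
    have := congrFun (congrArg Prod.snd (hc n hn)) j
    simpa [cho] using this
  funext k
  refine eq_of_chain (hG'.nd k) (hG.nd k) ?_ (by rw [hG.hd, hG'.hd]) (by rw [hG.ls, hG'.ls])
  refine (chain_same hG' (k := k) ?_ ?_).1
  · rw [List.isChain_iff_getElem]
    intro i hi
    exact nf_imp hL hN hG hG' hau hru ⟨k, Or.inl (infix_pair_iff.2 ⟨i, hi, rfl, rfl⟩)⟩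
  · intro u hu
    rw [hG.hd k] at hu
    rw [← Option.some.inj hu]
    exact List.mem_of_head? (hG'.hd k)

/-- Lower bound. -/
theorem fm_le_rm (hL : 2 ≤ L) (hN : 1 ≤ N) (hs : Function.Injective s) (hs' : Function.Injective s') :
    fm N s s' ≤ rm (Sum.inl : Fin L → Fin L ⊕ Fin l) N (th s) (th s') := by
  unfold fm rm
  let φ : {γ : Fin l → List (CV L) // Fam N s s' γ} → {cs : List (Ch L) // cs.length = N} :=
    fun γ => ⟨csl hL (fun k => ((N : ℤ), s k, true) :: γ.1 k) N, csl_length hL _ N⟩
  have hφ : Function.Injective φ := by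
    intro γ γ' e
    have e' : csl hL (fun k => ((N : ℤ), s k, true) :: γ.1 k) N =
        csl hL (fun k => ((N : ℤ), s k, true) :: γ'.1 k) N := congrArg Subtype.val e
    have e2 := csl_injF hL hN (EF_of_Fam hs γ.2) (EF_of_Fam hs γ'.2) e'
    apply Subtype.ext
    funext k
    exact List.tail_eq_of_cons_eq (congrFun e2 k)
  have hw : ∀ γ, ∏ k, xE ^ (γ.1 k).length =
      wr (th s') (run (Sum.inl : Fin L → Fin L ⊕ Fin l) (φ γ).1 (th s)) := by
    intro γ
    show _ = wr (th s') (run (Sum.inl : Fin L → Fin L ⊕ Fin l)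
      (csl hL (fun k => ((N : ℤ), s k, true) :: γ.1 k) N) (th s))
    rw [run_fam hL hN hs hs' γ.2, Finset.prod_pow_eq_pow_sum]
    simp [wr]
  rw [tsum_congr hw]
  exact ENNReal.tsum_comp_le_tsum_of_injective hφ
    (fun cs : {cs : List (Ch L) // cs.length = N} => wr (th s') (run (Sum.inl : Fin L → Fin L ⊕ Fin l) cs.1 (th s)))

/-- The mass of the runs from `th s` to `th s'` is the mass of the systems of disjoint crossing paths. -/
theorem rm_eq_fm (hL : 2 ≤ L) (hN : 1 ≤ N) (hs : Function.Injective s) (hs' : Function.Injective s') :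
    rm (Sum.inl : Fin L → Fin L ⊕ Fin l) N (th s) (th s') = fm N s s' :=
  le_antisymm (rm_le_fm hL hN hs hs') (fm_le_rm hL hN hs hs')

end Pool.Agent.CYL.H
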