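import Pool.Agent.CYL.D.H.Run

/-!
# CYL, part D: systems of disjoint crossing paths; upper bound of the masses of the runs

Labels `Fin L ⊕ Fin l`: `Sum.inl j` = line `j`, `Sum.inr k` = `oo_k` (bottom end of the `k`-th strand).
-/

namespace Pool.Agent.CYL.H

open Pool.Agent.Hhelper14.SAW Pool.Agent.HHP Pool.Agent.BEX Pool.Agent.BEX.HistD Pool.Agent.QL
open scoped ENNReal

theorem cn_rev {V : Type*} [DecidableEq V] (v : V) (l : List V) : cn v l.reverse = cn v l := by
  simp [cn]

theorem cn_one {V : Type*} [DecidableEq V] (v x : V) : cn v [x] = if x = v then 1 else 0 := by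
  simp [cn, List.count_singleton]

variable {L l : ℕ}

open Classical in
/-- The state with the strands `s k - oo_k`. -/
noncomputable def th (s : Fin l → Fin L) : Fin L ⊕ Fin l → Fin L ⊕ Fin l
  | Sum.inl j => if h : ∃ k, s k = j then Sum.inr h.choose else Sum.inl j
  | Sum.inr k => Sum.inl (s k)

theorem th_r (s : Fin l → Fin L) (k : Fin l) : th s (Sum.inr k) = Sum.inl (s k) := rfl

theorem th_s {s : Fin l → Fin L} (hs : Function.Injective s) (k : Fin l) : th s (Sum.inl (s k)) = Sum.inr k := by
  have h : ∃ k', s k' = s k := ⟨k, rfl⟩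
  simp only [th, dif_pos h]
  rw [hs h.choose_spec]

theorem th_o {s : Fin l → Fin L} {j : Fin L} (h : ∀ k, s k ≠ j) : th s (Sum.inl j) = Sum.inl j := by
  simp only [th]
  rw [dif_neg]
  rintro ⟨k, hk⟩
  exact h k hk

theorem th_inv {s : Fin l → Fin L} (hs : Function.Injective s) (a : Fin L ⊕ Fin l) : th s (th s a) = a := by
  rcases a with j | k
  · by_cases h : ∃ k, s k = j
    · obtain ⟨k, rfl⟩ := h
      rw [th_s hs, th_r]
    · push Not at h
      rw [th_o h, th_o h]
  · rw [th_r, th_s hs]

/-- Systems of disjoint paths in the cylinder of `N` rows, the `k`-th from the bottom vertex `s k` to the top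
vertex `s' k`. -/
structure Fam (N : ℕ) (s s' : Fin l → Fin L) (γ : Fin l → List (CV L)) : Prop where
  cp : ∀ k, CP N ((N : ℤ) - 1, s k, false) (0, s' k, true) (γ k)
  dj : ∀ k k', k ≠ k' → ∀ v ∈ γ k, v ∉ γ k'

/-- Their mass. -/
noncomputable def fm (N : ℕ) (s s' : Fin l → Fin L) : ℝ≥0∞ :=
  ∑' γ : {γ : Fin l → List (CV L) // Fam N s s' γ}, ∏ k, xE ^ (γ.1 k).length

/-- Neighbours in a system. -/
def NF (γ : Fin l → List (CV L)) (u v : CV L) : Prop := ∃ k, Nb (γ k) u v

theorem NF.symm {γ : Fin l → List (CV L)} {u v : CV L} (h : NF γ u v) : NF γ v u := by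
  obtain ⟨k, hk⟩ := h
  exact ⟨k, Nb.symm hk⟩

/-- The choices `cs` are read off from the system. -/
def RdF (cs : List (Ch L)) (γ : Fin l → List (CV L)) : Prop := ∀ (m : ℕ) (e : Ch L), cs.reverse[m]? = some e →
  (∀ p, e.2 p = true ↔ NF γ ((m : ℤ), p, true) ((m : ℤ), p, false)) ∧
  (∀ p q : Fin L, (p : ℕ) = L - 1 → (q : ℕ) = 0 → (e.1 = true ↔ NF γ ((m : ℤ), p, false) ((m : ℤ), q, true)))

theorem RdF_inj (hL : 2 ≤ L) {cs cs' : List (Ch L)} (h : cs.length = cs'.length) {γ : Fin l → List (CV L)}
    (h1 : RdF cs γ) (h2 : RdF cs' γ) : cs = cs' := by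
  rw [← List.reverse_inj]
  apply List.ext_getElem?
  intro m
  rcases e1 : cs.reverse[m]? with _ | e
  · rw [List.getElem?_eq_none_iff, List.length_reverse] at e1
    symm
    rw [List.getElem?_eq_none_iff, List.length_reverse, ← h]
    exact e1
  · rcases e2 : cs'.reverse[m]? with _ | e'
    · rw [List.getElem?_eq_none_iff, List.length_reverse, ← h, ← List.length_reverse, ← List.getElem?_eq_none_iff] at e2
      rw [e2] at e1
      simp at e1
    · obtain ⟨a1, a2⟩ := h1 m e e1
      obtain ⟨b1, b2⟩ := h2 m e' e2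
      congr 1
      have hA := a2 ⟨L - 1, by omega⟩ ⟨0, by omega⟩ rfl rfl
      have hB := b2 ⟨L - 1, by omega⟩ ⟨0, by omega⟩ rfl rfl
      refine Prod.ext ?_ ?_
      · rw [Bool.eq_iff_iff, hA, hB]
      · funext p
        rw [Bool.eq_iff_iff, a1 p, b1 p]

open Classical in
/-- The decoration of the start: a virtual vertex under the bottom vertex of every strand. -/
noncomputable def d0 (N : ℕ) (s : Fin l → Fin L) : Fin L ⊕ Fin l → List (CV L)
  | Sum.inl j => if ∃ k, s k = j then [((N : ℤ), j, true)] else []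
  | Sum.inr k => [((N : ℤ), s k, true)]

theorem W_d0 {s : Fin l → Fin L} (hs : Function.Injective s) (N : ℕ) (φ : List (CV L) → ℕ) (h0 : φ [] = 0) :
    W φ (d0 N s) = ∑ k, 2 * φ [((N : ℤ), s k, true)] := by
  classical
  unfold W
  rw [Fintype.sum_sum_type]
  have e1 : ∑ j : Fin L, φ (d0 N s (Sum.inl j)) = ∑ k, φ [((N : ℤ), s k, true)] := by
    have e2 : ∀ j : Fin L, φ (d0 N s (Sum.inl j)) =
        if j ∈ Finset.univ.image s then φ [((N : ℤ), j, true)] else 0 := by
      intro j
      simp only [d0, Finset.mem_image, Finset.mem_univ, true_and]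
      split_ifs
      · rfl
      · exact h0
    simp only [e2]
    rw [← Finset.sum_filter]
    have e3 : (Finset.univ.filter fun j => j ∈ Finset.univ.image s) = Finset.univ.image s := by
      ext j; simp
    rw [e3, Finset.sum_image fun x _ y _ h => hs h]
  rw [e1, ← Finset.sum_add_distrib]
  refine Finset.sum_congr rfl fun k _ => ?_
  simp only [d0]
  ring

theorem start_RJ {s : Fin l → Fin L} (hs : Function.Injective s) (N : ℕ) (R : CV L → CV L → Prop) :
    RJ (Sum.inl : Fin L → Fin L ⊕ Fin l) (fun a u => ∀ k, a = Sum.inr k → u = ((N : ℤ), s k, true)) R (N : ℤ)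
      (th s) (d0 N s) := by
  refine ⟨⟨th_inv hs, ?_, ?_, ?_, ?_⟩, ?_, ?_, ?_⟩
  · rintro (j | k)
    · by_cases h : ∃ k, s k = j
      · obtain ⟨k, rfl⟩ := h
        rw [th_s hs]
        simp [d0]
      · push Not at h
        rw [th_o h]
        have h' : ¬ ∃ k, s k = j := by push Not; exact h
        simp [d0, h']
    · rw [th_r]
      simp [d0]
  · rintro (j | k) h
    · by_cases h' : ∃ k, s k = j
      · obtain ⟨k, rfl⟩ := h'
        rw [th_s hs] at h
        simp at h
      · simp [d0, h']
    · rw [th_r] at h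
      simp at h
  · rintro (j | k)
    · simp only [d0]
      split_ifs <;> simp
    · simp [d0]
  · rintro (j | k) u hu
    · simp only [d0] at hu
      split_ifs at hu with h
      · simp only [List.head?_cons, Option.some.injEq] at hu
        subst hu
        exact ⟨fun j' e => by rw [Sum.inl.inj e], fun h3 => absurd rfl (h3 j)⟩
      · simp at hu
    · simp only [d0, List.head?_cons, Option.some.injEq] at hu
      subst hu
      exact ⟨fun j' e => by simp at e, fun _ k' e => by rw [Sum.inr.inj e]⟩
  · intro v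
    rw [W_d0 hs N _ (by simp [cn])]
    have e : ∀ k, 2 * cn v [((N : ℤ), s k, true)] = if v = ((N : ℤ), s k, true) then 2 else 0 := by
      intro k
      rw [cn_one]
      by_cases h : ((N : ℤ), s k, true) = v
      · rw [if_pos h, if_pos h.symm]
      · rw [if_neg h, if_neg (Ne.symm h)]
    simp only [e]
    by_cases hv : ∃ k, v = ((N : ℤ), s k, true)
    · obtain ⟨k, rfl⟩ := hv
      rw [Finset.sum_eq_single k]
      · simp
      · intro k' _ hk'
        rw [if_neg]
        intro h
        apply hk'
        apply hs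
        simpa using h.symm
      · simp
    · push Not at hv
      rw [Finset.sum_eq_zero]
      · omega
      · intro k _
        rw [if_neg (hv k)]
  · intro v hv
    rw [W_d0 hs N _ (by simp [cn])]
    apply Finset.sum_eq_zero
    intro k _
    rw [cn_one, if_neg, mul_zero]
    rintro rfl
    simp at hv
  · rintro (j | k) h
    · by_cases h' : ∃ k, s k = j
      · simp [d0, h']
      · push Not at h'
        rw [th_o h'] at h
        exact absurd rfl h
    · simp [d0]

/-- A successful run gives a system. -/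
theorem goodF (hL : 2 ≤ L) {N : ℕ} (hN : 1 ≤ N) {s s' : Fin l → Fin L} (hs : Function.Injective s)
    (hs' : Function.Injective s') (cs : List (Ch L)) (hcs : cs.length = N) (c : ℕ)
    (hr : run (Sum.inl : Fin L → Fin L ⊕ Fin l) cs (th s) = some (th s', c)) :
    ∃ γ : Fin l → List (CV L), Fam N s s' γ ∧ ∑ k, (γ k).length = c ∧ RdF cs γ := by
  have hRs : ∀ u v, RR cs u v → RR cs v u := fun u v h => h.symm
  have hstart := start_RJ hs cs.length (RR cs)
  obtain ⟨d, e1, e2, e3, e4, e5⟩ := run_dec hL (fun x y e => Sum.inl.inj e) hRs cs (th s) (d0 cs.length s)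
    (okC_RR hL cs [] cs rfl) hstart _ _ hr
  rw [hcs] at e2 e4
  have hdj : ∀ k, d (Sum.inl (s' k)) = (d (Sum.inr k)).reverse := fun k => by rw [← e1.dec.rev, th_r]
  have hne : ∀ k, d (Sum.inr k) ≠ [] := fun k => e1.ne _ (by rw [th_r]; simp)
  have hd1 : ∀ k, (d (Sum.inr k)).head? = some ((N : ℤ), s k, true) := by
    intro k
    obtain ⟨x, t, hx⟩ := List.exists_cons_of_ne_nil (hne k)
    have := (e1.dec.hd (Sum.inr k) x (by rw [hx]; rfl)).2 (by simp) k rfl
    rw [hx, this, hcs]
    rfl
  have hd2 : ∀ k, (d (Sum.inr k)).getLast? = some ((0 : ℤ), s' k, true) := by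
    intro k
    have h1 : d (Sum.inl (s' k)) ≠ [] := by rw [hdj]; simpa using hne k
    obtain ⟨x, t, hx⟩ := List.exists_cons_of_ne_nil h1
    have h2 := (e1.dec.hd (Sum.inl (s' k)) x (by rw [hx]; rfl)).1 (s' k) rfl
    have h3 : d (Sum.inr k) = (d (Sum.inl (s' k))).reverse := by rw [hdj, List.reverse_reverse]
    rw [h3, List.getLast?_reverse, hx, h2]
    rfl
  -- the strand without the virtual vertex
  have hγ : ∀ k, ∃ t, d (Sum.inr k) = ((N : ℤ), s k, true) :: t := by
    intro k
    obtain ⟨x, t, hx⟩ := List.exists_cons_of_ne_nil (hne k)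
    have := hd1 k
    rw [hx] at this
    simp only [List.head?_cons, Option.some.injEq] at this
    exact ⟨t, by rw [hx, this]⟩
  choose γ hγ using hγ
  have hcnt : ∀ v, W (cn v) d ≤ 2 := e1.c2
  have hnd : ∀ k, (d (Sum.inr k)).Nodup := fun k => nodup_of e1.dec e1.c2 _
  have hch : ∀ k, (d (Sum.inr k)).IsChain (RR cs) := fun k => (e1.dec.chn _).imp fun u v h => h.1
  have hin : ∀ a v, v ∈ d a → 1 ≤ cn v (d a) := by
    intro a v h
    by_contra h1
    exact cn_zero (by omega) h
  have hrevc : ∀ k v, cn v (d (Sum.inl (s' k))) = cn v (d (Sum.inr k)) := by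
    intro k v
    rw [hdj, cn_rev]
  have hdis : ∀ k k', k ≠ k' → ∀ v ∈ d (Sum.inr k), v ∉ d (Sum.inr k') := by
    intro k k' hkk v h1 h2
    have h3 := hcnt v
    have h4 : ∑ a ∈ ({Sum.inr k, Sum.inl (s' k), Sum.inr k', Sum.inl (s' k')} : Finset (Fin L ⊕ Fin l)),
        cn v (d a) ≤ W (cn v) d := Finset.sum_le_sum_of_subset (Finset.subset_univ _)
    have n1 : (Sum.inr k : Fin L ⊕ Fin l) ∉
        ({Sum.inl (s' k), Sum.inr k', Sum.inl (s' k')} : Finset (Fin L ⊕ Fin l)) := by simp [hkk]
    have n2 : (Sum.inl (s' k) : Fin L ⊕ Fin l) ∉ ({Sum.inr k', Sum.inl (s' k')} : Finset (Fin L ⊕ Fin l)) := by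
      simp only [Finset.mem_insert, reduceCtorEq, Finset.mem_singleton, Sum.inl.injEq, false_or]
      exact fun e => hkk (hs' e)
    have n3 : (Sum.inr k' : Fin L ⊕ Fin l) ∉ ({Sum.inl (s' k')} : Finset (Fin L ⊕ Fin l)) := by simp
    rw [Finset.sum_insert n1, Finset.sum_insert n2, Finset.sum_insert n3, Finset.sum_singleton, hrevc, hrevc] at h4
    have h5 := hin _ _ h1
    have h6 := hin _ _ h2
    omega
  -- the virtual vertex
  have hvirt : ∀ v : CV L, v.1 < 0 ∨ (N : ℤ) ≤ v.1 → ∀ k, v ∈ d (Sum.inr k) → v = ((N : ℤ), s k, true) := by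
    intro v hv k hk
    by_contra hcon
    have h1 := e4 v hv
    rw [W_d0 hs N _ (by simp [cn])] at h1
    have h2 : ∃ k', v = ((N : ℤ), s k', true) := by
      by_contra h3
      push Not at h3
      have h4 : ∑ k', 2 * cn v [((N : ℤ), s k', true)] = 0 := by
        apply Finset.sum_eq_zero
        intro k' _
        rw [cn_one, if_neg (Ne.symm (h3 k')), mul_zero]
      rw [h4] at h1
      have h5 := W_zero h1 (Sum.inr k)
      exact cn_zero h5 hk
    obtain ⟨k', hk'⟩ := h2
    have hkk : k ≠ k' := fun e => hcon (by rw [hk', e])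
    refine hdis k k' hkk v hk ?_
    rw [hγ k', hk']
    simp
  refine ⟨γ, ⟨?_, ?_⟩, ?_, ?_⟩
  · intro k
    have hnd' := hnd k
    rw [hγ k, List.nodup_cons] at hnd'
    have hch' := hch k
    have hγne : γ k ≠ [] := by
      intro e
      have h1 := hd2 k
      rw [hγ k, e] at h1
      simp only [List.getLast?_singleton, Option.some.injEq, Prod.mk.injEq] at h1
      omega
    obtain ⟨y, t, hy⟩ := List.exists_cons_of_ne_nil hγne
    have hrow : ∀ z ∈ γ k, 0 ≤ z.1 ∧ z.1 < N := by
      intro z hz
      by_contra hcon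
      have h1 : z.1 < 0 ∨ (N : ℤ) ≤ z.1 := by
        by_contra h2
        exact hcon ⟨by omega, by omega⟩
      have h2 := hvirt z h1 k (by rw [hγ k]; exact List.mem_cons_of_mem _ hz)
      rw [h2] at hz
      exact hnd'.1 hz
    refine ⟨hnd'.2, ?_, hrow, ?_, ?_⟩
    · rw [hγ k] at hch'
      have := hch'.tail
      exact this.imp fun u v h => h.1
    · rw [hγ k, hy, List.isChain_cons_cons] at hch'
      have h1 := hch'.1.1
      have h2 := hrow y (by rw [hy]; simp)
      rw [hy]
      simp only [List.head?_cons, Option.some.injEq]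
      obtain ⟨a, b, c'⟩ := y
      simp only at h2
      rcases h1 with ⟨-, h3, h4 | h4 | h4⟩ | ⟨-, h3, h4⟩
      · simp only at h4; omega
      · simp only at h4; omega
      · simp only at h3 h4
        rw [h3, h4.1, h4.2]
      · simp at h3
    · have h1 := hd2 k
      rw [hγ k, hy, List.getLast?_cons_cons] at h1
      rw [hy]
      exact h1
  · intro k k' hkk v hv hv'
    exact hdis k k' hkk v (by rw [hγ k]; exact List.mem_cons_of_mem _ hv)
      (by rw [hγ k']; exact List.mem_cons_of_mem _ hv')
  · -- lengths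
    have h1 : W (fun l : List (CV L) => l.length) d = ∑ k, 2 * ((γ k).length + 1) := by
      classical
      unfold W
      rw [Fintype.sum_sum_type]
      have e6 : ∑ j : Fin L, (d (Sum.inl j)).length = ∑ k, ((γ k).length + 1) := by
        have e7 : ∑ j ∈ Finset.univ.image s', (d (Sum.inl j)).length = ∑ j : Fin L, (d (Sum.inl j)).length := by
          apply Finset.sum_subset (Finset.subset_univ _)
          intro j _ hj
          have : th s' (Sum.inl j) = Sum.inl j := th_o fun k e => hj (by
            rw [← e]; exact Finset.mem_image_of_mem _ (Finset.mem_univ _))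
          rw [e1.dec.emp _ this]
          rfl
        rw [← e7, Finset.sum_image fun x _ y _ h => hs' h]
        refine Finset.sum_congr rfl fun k _ => ?_
        rw [hdj, List.length_reverse, hγ k]
        simp
      have e8 : ∑ k, (d (Sum.inr k)).length = ∑ k, ((γ k).length + 1) :=
        Finset.sum_congr rfl fun k _ => by rw [hγ k]; simp
      rw [e6, e8, ← Finset.sum_add_distrib]
      refine Finset.sum_congr rfl fun k _ => ?_
      ring
    rw [h1, W_d0 hs N _ rfl] at e2
    have h2 : ∑ k : Fin l, 2 * ((γ k).length + 1) = 2 * (∑ k, (γ k).length) + 2 * l := by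
      rw [← Finset.mul_sum, Finset.sum_add_distrib]
      simp [mul_add]
    have h3 : ∑ k : Fin l, 2 * [((N : ℤ), s k, true)].length = 2 * l := by
      simp [mul_comm]
    rw [h2, h3] at e2
    omega
  · intro m e he
    have hmN : m < N := by
      by_contra hcon
      rw [List.getElem?_eq_none (by rw [List.length_reverse, hcs]; omega)] at he
      simp at he
    obtain ⟨g1, g2⟩ := e5 m e he
    have hnb : ∀ u v, NF γ u v → RR cs u v := by
      rintro u v ⟨k, h1⟩
      have h3 : (γ k).IsChain (RR cs) := by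
        have := hch k
        rw [hγ k] at this
        exact this.tail
      rcases h1 with h1 | h1
      · exact pair_of_chain h3 h1
      · exact RR.symm (pair_of_chain h3 h1)
    have hex : ∀ u v : CV L, u.1 = m → v.1 = m → (∃ a, [u, v] <:+: d a ∨ [v, u] <:+: d a) → NF γ u v := by
      rintro u v hu hv ⟨a, ha⟩
      have tl : ∀ (x y : CV L) (k : Fin l), x.1 = m → [x, y] <:+: d (Sum.inr k) → [x, y] <:+: γ k := by
        intro x y k hx h1
        rw [hγ k, List.infix_cons_iff] at h1
        rcases h1 with h1 | h1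
        · exfalso
          obtain ⟨t, ht⟩ := h1
          simp only [List.cons_append, List.cons.injEq] at ht
          rw [ht.1] at hx
          simp only at hx
          omega
        · exact h1
      rcases a with j | k
      · by_cases h1 : ∃ k, s' k = j
        · obtain ⟨k, rfl⟩ := h1
          rw [hdj] at ha
          refine ⟨k, ?_⟩
          rcases ha with ha | ha
          · right
            rw [← List.reverse_infix] at ha
            simp only [List.reverse_cons, List.reverse_nil, List.nil_append, List.cons_append,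
              List.reverse_reverse] at ha
            exact tl _ _ k hv ha
          · left
            rw [← List.reverse_infix] at ha
            simp only [List.reverse_cons, List.reverse_nil, List.nil_append, List.cons_append,
              List.reverse_reverse] at ha
            exact tl _ _ k hu ha
        · push Not at h1
          rw [e1.dec.emp _ (th_o h1)] at ha
          simp at ha
      · refine ⟨k, ?_⟩
        rcases ha with ha | ha
        · exact Or.inl (tl _ _ k hu ha)
        · exact Or.inr (tl _ _ k hv ha)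
    constructor
    · intro p
      constructor
      · intro h1
        exact hex _ _ rfl rfl (g1 p h1)
      · intro h1
        exact ((hnb _ _ h1).2.1 m e he).1 p rfl rfl
    · intro p q hp hq
      have ep : p = ⟨L - 1, by omega⟩ := Fin.ext hp
      have eq' : q = ⟨0, by omega⟩ := Fin.ext hq
      constructor
      · intro h1
        rw [ep, eq']
        exact hex _ _ rfl rfl (g2 h1)
      · intro h1
        exact ((hnb _ _ h1).2.1 m e he).2 p q hp hq rfl rfl

/-- Upper bound. -/
theorem rm_le_fm (hL : 2 ≤ L) {N : ℕ} (hN : 1 ≤ N) {s s' : Fin l → Fin L} (hs : Function.Injective s)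
    (hs' : Function.Injective s') :
    rm (Sum.inl : Fin L → Fin L ⊕ Fin l) N (th s) (th s') ≤ fm N s s' := by
  classical
  set S : Set {cs : List (Ch L) // cs.length = N} :=
    {cs | ∃ c, run (Sum.inl : Fin L → Fin L ⊕ Fin l) cs.1 (th s) = some (th s', c)} with hS
  have hsub : Function.support (fun cs : {cs : List (Ch L) // cs.length = N} =>
      wr (th s') (run (Sum.inl : Fin L → Fin L ⊕ Fin l) cs.1 (th s))) ⊆ S := by
    intro cs hc
    rw [Function.mem_support] at hc
    unfold wr at hc
    rcases hr : run (Sum.inl : Fin L → Fin L ⊕ Fin l) cs.1 (th s) with _ | g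
    · rw [hr] at hc
      simp at hc
    · rw [hr] at hc
      by_cases hg : g.1 = th s'
      · exact ⟨g.2, by rw [hr, ← hg]⟩
      · simp [hg] at hc
  choose! c hc using fun (cs : {cs : List (Ch L) // cs.length = N}) (hcs : cs ∈ S) => hcs
  have hg : ∀ cs : S, ∃ γ : Fin l → List (CV L), Fam N s s' γ ∧ ∑ k, (γ k).length = c cs.1 ∧ RdF cs.1.1 γ :=
    fun cs => goodF hL hN hs hs' cs.1.1 cs.1.2 _ (hc cs.1 cs.2)
  choose γ g1 g2 g3 using hg
  unfold rm
  rw [← tsum_subtype_eq_of_support_subset hsub]
  have e : ∀ cs : S, wr (th s') (run (Sum.inl : Fin L → Fin L ⊕ Fin l) cs.1.1 (th s)) =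
      ∏ k, xE ^ (γ cs k).length := by
    intro cs
    rw [hc cs.1 cs.2, Finset.prod_pow_eq_pow_sum]
    simp [wr, g2]
  calc (∑' cs : S, wr (th s') (run (Sum.inl : Fin L → Fin L ⊕ Fin l) cs.1.1 (th s)))
      = ∑' cs : S, ∏ k, xE ^ (γ cs k).length := tsum_congr e
    _ = ∑' cs : S, (fun F : {γ : Fin l → List (CV L) // Fam N s s' γ} => ∏ k, xE ^ (F.1 k).length)
          (⟨γ cs, g1 cs⟩ : {γ : Fin l → List (CV L) // Fam N s s' γ}) := rfl
    _ ≤ ∑' F : {γ : Fin l → List (CV L) // Fam N s s' γ}, ∏ k, xE ^ (F.1 k).length :=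
        ENNReal.tsum_comp_le_tsum_of_injective (f := fun cs : S =>
          (⟨γ cs, g1 cs⟩ : {γ : Fin l → List (CV L) // Fam N s s' γ})) (by
            intro x y hxy
            have h1 : γ x = γ y := congrArg Subtype.val hxy
            apply Subtype.ext
            apply Subtype.ext
            exact RdF_inj hL (x.1.2.trans y.1.2.symm) (g3 x) (h1 ▸ g3 y)) _

end Pool.Agent.CYL.H
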