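import Pool.Agent.CYL.D.H.Fam
import Pool.Agent.QL.HLDeg

/-!
# CYL, part D: the edges of a system of disjoint crossing paths at a vertex

`EF N s s' G`: the paths of a system with the virtual vertex `(N, s k, true)` in front.
-/

namespace Pool.Agent.CYL.H

open Pool.Agent.BEX Pool.Agent.QL Pool.Agent.QL.HL

variable {L l : ℕ}

/-- Systems of disjoint crossing paths, with the virtual vertices in the row `N` in front. -/
structure EF (N : ℕ) (s s' : Fin l → Fin L) (G : Fin l → List (CV L)) : Prop where
  nd : ∀ k, (G k).Nodup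
  ch : ∀ k, (G k).IsChain ad
  hd : ∀ k, (G k).head? = some ((N : ℤ), s k, true)
  ls : ∀ k, (G k).getLast? = some ((0 : ℤ), s' k, true)
  rw : ∀ k, ∀ z ∈ (G k).tail, 0 ≤ z.1 ∧ z.1 < N
  dj : ∀ k k', k ≠ k' → ∀ v ∈ G k, v ∉ G k'

theorem EF_of_Fam {N : ℕ} {s s' : Fin l → Fin L} (hs : Function.Injective s) {γ : Fin l → List (CV L)}
    (h : Fam N s s' γ) : EF N s s' (fun k => ((N : ℤ), s k, true) :: γ k) := by
  have hrow : ∀ k j b, ((N : ℤ), j, b) ∉ γ k := by
    intro k j b hm
    have := ((h.cp k).2.2.1 _ hm).2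
    simp at this
  have hne : ∀ k, γ k ≠ [] := by
    intro k e
    have := (h.cp k).2.2.2.1
    rw [e] at this
    simp at this
  refine ⟨?_, ?_, fun k => rfl, ?_, fun k => (h.cp k).2.2.1, ?_⟩
  · intro k
    exact List.nodup_cons.2 ⟨hrow k _ _, (h.cp k).1⟩
  · intro k
    obtain ⟨x, t, hx⟩ := List.exists_cons_of_ne_nil (hne k)
    have h1 := (h.cp k).2.2.2.1
    have h2 := (h.cp k).2.1
    rw [hx] at h1 h2 ⊢
    simp only [List.head?_cons, Option.some.injEq] at h1
    rw [List.isChain_cons_cons]
    refine ⟨?_, h2⟩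
    rw [h1]
    exact Or.inl ⟨rfl, rfl, Or.inr (Or.inr ⟨rfl, rfl⟩)⟩
  · intro k
    obtain ⟨x, t, hx⟩ := List.exists_cons_of_ne_nil (hne k)
    have h1 := (h.cp k).2.2.2.2
    rw [hx] at h1 ⊢
    rw [List.getLast?_cons_cons]
    exact h1
  · intro k k' hkk v hv hv'
    rcases List.mem_cons.1 hv with e | hv
    · rcases List.mem_cons.1 hv' with e' | hv'
      · rw [e] at e'
        exact hkk (hs (by simpa using e'))
      · rw [e] at hv'
        exact hrow _ _ _ hv'
    · rcases List.mem_cons.1 hv' with e' | hv'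
      · rw [e'] at hv
        exact hrow _ _ _ hv
      · exact h.dj k k' hkk v hv hv'

section

variable {N : ℕ} {s s' : Fin l → Fin L} {G : Fin l → List (CV L)}

theorem NF.mem (h : EF N s s' G) {u v : CV L} {k : Fin l} (hu : u ∈ G k) (hn : NF G u v) : Nb (G k) u v := by
  obtain ⟨k', hk'⟩ := hn
  by_cases e : k' = k
  · rwa [e] at hk'
  · exact absurd hu (h.dj k' k e u hk'.mem.1)

theorem NF.ad (h : EF N s s' G) {u v : CV L} (hn : NF G u v) : QL.ad u v := by
  obtain ⟨k, hk⟩ := hn
  have hc := List.isChain_iff_getElem.1 (h.ch k)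
  rcases hk with hk | hk
  · obtain ⟨i, hi, rfl, rfl⟩ := infix_pair_iff.1 hk
    exact hc i hi
  · obtain ⟨i, hi, rfl, rfl⟩ := infix_pair_iff.1 hk
    exact Or.symm (hc i hi)

/-- A chain of neighbours stays in one path. -/
theorem chain_same (h : EF N s s' G) {k : Fin l} {w : List (CV L)} (hc : w.IsChain (NF G))
    (hh : ∀ u, w.head? = some u → u ∈ G k) : w.IsChain (Nb (G k)) ∧ ∀ v ∈ w, v ∈ G k := by
  induction w with
  | nil => simp
  | cons u t ih =>
    have hu := hh u rfl
    cases t with
    | nil => simpa using hu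
    | cons v t =>
      rw [List.isChain_cons_cons] at hc
      have h1 := NF.mem h hu hc.1
      obtain ⟨h2, h3⟩ := ih hc.2 (by
        intro x hx
        simp only [List.head?_cons, Option.some.injEq] at hx
        rw [← hx]
        exact h1.mem.2)
      refine ⟨List.isChain_cons_cons.2 ⟨h1, h2⟩, ?_⟩
      intro x hx
      rcases List.mem_cons.1 hx with e | hx
      · rw [e]; exact hu
      · exact h3 x hx

/-- No cycle of neighbours. -/
theorem no_cycleF (h : EF N s s' G) {w : List (CV L)} (hw : w.Nodup) (h3 : 3 ≤ w.length)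
    (hc : w.IsChain (NF G)) (hcl : NF G (w[w.length - 1]'(by omega)) (w[0]'(by omega))) : False := by
  obtain ⟨k, hk⟩ := hcl
  obtain ⟨h1, -⟩ := chain_same h (k := k) hc (by
    intro u hu
    rw [List.head?_eq_getElem?, List.getElem?_eq_getElem (by omega)] at hu
    rw [← Option.some.inj hu]
    exact hk.mem.2)
  exact no_cycle (h.nd k) hw h3 h1 hk

/-- The edge (or leg) from `P1` of the row `n`, line `j`, upwards is used. -/
def upF (G : Fin l → List (CV L)) (s' : Fin l → Fin L) (n : ℤ) (j : Fin L) : Prop :=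
  if n = 0 then ∃ k, s' k = j else NF G (n, j, true) (n - 1, j, false)

/-- The auxiliary edge to the left of the line `k` is used (`k = 0`, `k = L`: the seam). -/
def auF (hL : 2 ≤ L) (G : Fin l → List (CV L)) (n : ℤ) (k : ℕ) : Prop :=
  NF G (n, HL.lp hL k, false) (n, ln hL k, true)

/-- The rung is used. -/
def ruF (G : Fin l → List (CV L)) (n : ℤ) (j : Fin L) : Prop := NF G (n, j, true) (n, j, false)

theorem auF_L (hL : 2 ≤ L) (n : ℤ) : auF hL G n L ↔ auF hL G n 0 := by
  unfold auF
  rw [ln_L, lp_pos hL (by omega)]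
  have : HL.lp hL 0 = ln hL (L - 1) := by unfold HL.lp; rw [Nat.zero_add]
  rw [this]

/-- The neighbours of `P1`. -/
theorem ad_P1 (hL : 2 ≤ L) {n : ℤ} {k : ℕ} {v : CV L} (h : QL.ad (n, ln hL k, true) v) :
    v = (n, HL.lp hL k, false) ∨ v = (n - 1, ln hL k, false) ∨ v = (n, ln hL k, false) := by
  obtain ⟨a, b, c⟩ := v
  rcases h with h1 | h1
  · obtain ⟨-, h2, h3 | h3 | h3⟩ := h1
    · simp only at h2 h3
      right; right
      rw [h2, h3.1, h3.2]
    · simp only at h2 h3
      left
      rw [h2, h3.1]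
      have : b = HL.lp hL k := md_inj hL (by rw [h3.2, md_lp])
      rw [this]
    · simp only at h2 h3
      right; left
      rw [h2, h3.1, h3.2]
  · obtain ⟨-, h2, -⟩ := h1
    simp at h2

/-- The neighbours of `P2`. -/
theorem ad_P2 (hL : 2 ≤ L) {n : ℤ} {k : ℕ} {v : CV L} (h : QL.ad (n, ln hL k, false) v) :
    v = (n, ln hL (k + 1), true) ∨ v = (n + 1, ln hL k, true) ∨ v = (n, ln hL k, true) := by
  obtain ⟨a, b, c⟩ := v
  rcases h with h1 | h1
  · obtain ⟨h2, -⟩ := h1
    simp at h2
  · obtain ⟨h2, -, h3 | h3 | h3⟩ := h1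
    · simp only at h2 h3
      right; right
      rw [h2, h3.1, ← h3.2]
    · simp only at h2 h3
      left
      have : b = ln hL (k + 1) := by
        rw [← h3.2, ← md_lp hL (k + 1), lp_pos hL (by omega)]
        rfl
      rw [h2, h3.1, this]
    · simp only at h2 h3
      right; left
      rw [h2, ← h3.2]
      have : a = n + 1 := by omega
      rw [this]

theorem EF.pos (h : EF N s s' G) (k : Fin l) : 0 < (G k).length := by
  have := h.hd k
  rcases e : G k with _ | ⟨a, t⟩
  · rw [e] at this; simp at this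
  · simp

theorem EF.e0 (h : EF N s s' G) (k : Fin l) : (G k)[0]'(h.pos k) = ((N : ℤ), s k, true) := by
  have := h.hd k
  rw [List.head?_eq_getElem?, List.getElem?_eq_getElem (h.pos k)] at this
  exact Option.some.inj this

theorem EF.e1 (h : EF N s s' G) (k : Fin l) :
    (G k)[(G k).length - 1]'(by have := h.pos k; omega) = ((0 : ℤ), s' k, true) := by
  have h1 := h.ls k
  have h2 := h.pos k
  rw [List.getLast?_eq_getElem?, List.getElem?_eq_getElem (by omega)] at h1
  exact Option.some.inj h1

/-- Rows of the vertices of a system. -/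
theorem EF.row (h : EF N s s' G) {k : Fin l} {v : CV L} (hv : v ∈ G k) :
    (0 ≤ v.1 ∧ v.1 < N) ∨ v = ((N : ℤ), s k, true) := by
  have h0 := h.hd k
  rcases e : G k with _ | ⟨a, t⟩
  · rw [e] at hv; simp at hv
  · rw [e] at hv h0
    simp only [List.head?_cons, Option.some.injEq] at h0
    rcases List.mem_cons.1 hv with e' | hv
    · right; rw [e', h0]
    · left
      have := h.rw k v (by rw [e]; exact hv)
      exact this

theorem degF1 (hL : 2 ≤ L) (h : EF N s s' G) {n : ℤ} (hn : 0 ≤ n) (hnN : n < N) (k : ℕ) :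
    (ruF G n (ln hL k) → (auF hL G n k ↔ ¬ upF G s' n (ln hL k))) ∧
      (¬ ruF G n (ln hL k) → (auF hL G n k ↔ upF G s' n (ln hL k))) := by
  have hAC : ((n, HL.lp hL k, false) : CV L) ≠ (n, ln hL k, false) := fun e => lp_ne hL k (by simpa using e)
  have hAB : ((n, HL.lp hL k, false) : CV L) ≠ (n - 1, ln hL k, false) := fun e => by
    have := congrArg Prod.fst e
    simp only at this
    omega
  have hBC : ((n - 1, ln hL k, false) : CV L) ≠ (n, ln hL k, false) := fun e => by
    have := congrArg Prod.fst e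
    simp at this
  have hau : auF hL G n k ↔ NF G (n, ln hL k, true) (n, HL.lp hL k, false) := ⟨NF.symm, NF.symm⟩
  by_cases hv : ∃ i, ((n, ln hL k, true) : CV L) ∈ G i
  · obtain ⟨i, hv⟩ := hv
    obtain ⟨t, ht, hvt⟩ := List.getElem_of_mem hv
    have hnd := h.nd i
    have hnb : ∀ x, NF G (n, ln hL k, true) x ↔ (∃ h : t + 1 < (G i).length, x = (G i)[t + 1]) ∨
        (∃ h : 1 ≤ t, x = (G i)[t - 1]) := by
      intro x
      rw [← nb_iff hnd ht, hvt]
      exact ⟨fun hh => NF.mem h hv hh, fun hh => ⟨i, hh⟩⟩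
    have t0 : t ≠ 0 := by
      intro t0
      subst t0
      rw [h.e0 i] at hvt
      have := congrArg Prod.fst hvt
      simp only at this
      omega
    by_cases t1 : t + 1 = (G i).length
    · -- last vertex
      have hv0 : ((n, ln hL k, true) : CV L) = ((0 : ℤ), s' i, true) := by
        rw [← hvt, ← h.e1 i]
        congr 1
        omega
      have hn0 : n = 0 := by simpa using congrArg Prod.fst hv0
      have hi : ln hL k = s' i := by simpa using congrArg (fun z : CV L => z.2.1) hv0
      have h1 := ad_P1 hL (NF.ad h ((hnb ((G i)[t - 1]'(by omega))).2 (Or.inr ⟨by omega, rfl⟩)))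
      have hmem := h.row (List.getElem_mem (show t - 1 < (G i).length by omega))
      have h2 : (G i)[t - 1]'(by omega) = (n, HL.lp hL k, false) ∨ (G i)[t - 1]'(by omega) = (n, ln hL k, false) := by
        rcases h1 with h1 | h1 | h1
        · exact Or.inl h1
        · rw [h1] at hmem
          rcases hmem with hmem | hmem
          · simp only at hmem; omega
          · have := congrArg Prod.fst hmem
            simp only at this
            omega
        · exact Or.inr h1
      refine one_of_two hAC h2 ?_ ?_ ?_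
      · rw [hau, hnb]
        constructor
        · rintro (⟨h, -⟩ | ⟨_, h⟩)
          · omega
          · exact h
        · intro h; exact Or.inr ⟨by omega, h⟩
      · unfold upF; rw [if_pos hn0]; exact ⟨i, hi.symm⟩
      · unfold ruF
        rw [hnb]
        constructor
        · rintro (⟨h, -⟩ | ⟨_, h⟩)
          · omega
          · exact h
        · intro h; exact Or.inr ⟨by omega, h⟩
    -- interior vertex
    have hx : (G i)[t - 1]'(by omega) ≠ (G i)[t + 1]'(by omega) := fun e => by
      have := (hnd.getElem_inj_iff).1 e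
      omega
    have hnb' : ∀ x, NF G (n, ln hL k, true) x ↔ (x = (G i)[t + 1]'(by omega) ∨ x = (G i)[t - 1]'(by omega)) := by
      intro x
      rw [hnb]
      constructor
      · rintro (⟨_, h⟩ | ⟨_, h⟩)
        · exact Or.inl h
        · exact Or.inr h
      · rintro (h | h)
        · exact Or.inl ⟨by omega, h⟩
        · exact Or.inr ⟨by omega, h⟩
    refine two_of_three hx hAB hAC hBC (ad_P1 hL (NF.ad h ((hnb' _).2 (Or.inr rfl))))
      (ad_P1 hL (NF.ad h ((hnb' _).2 (Or.inl rfl)))) (hau.trans (hnb' _)) ?_ (hnb' _)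
    rw [← hnb']
    unfold upF
    split_ifs with hn0
    · constructor
      · rintro ⟨i', hi'⟩
        exfalso
        have hm : ((n, ln hL k, true) : CV L) ∈ G i' := by
          rw [hn0, ← hi', ← h.e1 i']
          exact List.getElem_mem _
        by_cases e : i' = i
        · subst e
          have e2 : (G i')[t]'ht = (G i')[(G i').length - 1]'(by omega) := by rw [hvt, h.e1 i', hn0, hi']
          have := (hnd.getElem_inj_iff).1 e2
          omega
        · exact h.dj i' i e _ hm hv
      · intro h5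
        exfalso
        obtain ⟨i', h5⟩ := h5
        rcases h.row h5.mem.2 with h6 | h6
        · simp only at h6; omega
        · have := congrArg Prod.fst h6
          simp only at this
          omega
    · rfl
  · -- not on the paths
    push Not at hv
    have f1 : ¬ ruF G n (ln hL k) := fun ⟨i, h⟩ => hv i h.mem.1
    have f2 : ¬ auF hL G n k := fun ⟨i, h⟩ => hv i h.mem.2
    have f3 : ¬ upF G s' n (ln hL k) := by
      unfold upF
      split_ifs with hn0
      · rintro ⟨i, hi⟩
        apply hv i
        rw [hn0, ← hi, ← h.e1 i]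
        exact List.getElem_mem _
      · exact fun ⟨i, h⟩ => hv i h.mem.1
    tauto

theorem degF2 (hL : 2 ≤ L) (h : EF N s s' G) {n : ℤ} (hn : 0 ≤ n) (k : ℕ) :
    (ruF G n (ln hL k) → (auF hL G n (k + 1) ↔ ¬ upF G s' (n + 1) (ln hL k))) ∧
      (¬ ruF G n (ln hL k) → (auF hL G n (k + 1) ↔ upF G s' (n + 1) (ln hL k))) := by
  have hlp : HL.lp hL (k + 1) = ln hL k := by rw [lp_pos hL (by omega)]; rfl
  have hau : auF hL G n (k + 1) ↔ NF G (n, ln hL k, false) (n, ln hL (k + 1), true) := by
    unfold auF; rw [hlp]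
  have hup : upF G s' (n + 1) (ln hL k) ↔ NF G (n, ln hL k, false) (n + 1, ln hL k, true) := by
    unfold upF
    rw [if_neg (by omega), show n + 1 - 1 = n by ring]
    exact ⟨NF.symm, NF.symm⟩
  have hru : ruF G n (ln hL k) ↔ NF G (n, ln hL k, false) (n, ln hL k, true) := ⟨NF.symm, NF.symm⟩
  have hAC : ((n, ln hL (k + 1), true) : CV L) ≠ (n, ln hL k, true) := fun e => by
    have h1 := lp_ne hL (k + 1)
    rw [hlp] at h1
    exact h1 (by simpa using e.symm)
  have hAB : ((n, ln hL (k + 1), true) : CV L) ≠ (n + 1, ln hL k, true) := fun e => by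
    have := congrArg Prod.fst e
    simp at this
  have hBC : ((n + 1, ln hL k, true) : CV L) ≠ (n, ln hL k, true) := fun e => by
    have := congrArg Prod.fst e
    simp at this
  by_cases hv : ∃ i, ((n, ln hL k, false) : CV L) ∈ G i
  · obtain ⟨i, hv⟩ := hv
    obtain ⟨t, ht, hvt⟩ := List.getElem_of_mem hv
    have hnd := h.nd i
    have t0 : t ≠ 0 := by
      intro h0
      subst h0
      rw [h.e0 i] at hvt
      simpa using congrArg (fun z : CV L => z.2.2) hvt
    have t1 : t + 1 ≠ (G i).length := by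
      intro h0
      have e2 : (G i)[t]'ht = (G i)[(G i).length - 1]'(by omega) := by congr 1; omega
      rw [hvt, h.e1 i] at e2
      simpa using congrArg (fun z : CV L => z.2.2) e2
    have hx : (G i)[t - 1]'(by omega) ≠ (G i)[t + 1]'(by omega) := fun e => by
      have := (hnd.getElem_inj_iff).1 e
      omega
    have hnb' : ∀ x, NF G (n, ln hL k, false) x ↔
        (x = (G i)[t + 1]'(by omega) ∨ x = (G i)[t - 1]'(by omega)) := by
      intro x
      have e3 : NF G (n, ln hL k, false) x ↔ Nb (G i) (G i)[t] x := by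
        rw [hvt]
        exact ⟨fun hh => NF.mem h hv hh, fun hh => ⟨i, hh⟩⟩
      rw [e3, nb_iff hnd ht]
      constructor
      · rintro (⟨_, h⟩ | ⟨_, h⟩)
        · exact Or.inl h
        · exact Or.inr h
      · rintro (h | h)
        · exact Or.inl ⟨by omega, h⟩
        · exact Or.inr ⟨by omega, h⟩
    exact two_of_three hx hAB hAC hBC (ad_P2 hL (NF.ad h ((hnb' _).2 (Or.inr rfl))))
      (ad_P2 hL (NF.ad h ((hnb' _).2 (Or.inl rfl)))) (hau.trans (hnb' _)) (hup.trans (hnb' _)) (hru.trans (hnb' _))
  · push Not at hv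
    have f1 : ¬ ruF G n (ln hL k) := fun ⟨i, h⟩ => hv i h.mem.2
    have f2 : ¬ auF hL G n (k + 1) := fun hh => by
      obtain ⟨i, h⟩ := hau.1 hh
      exact hv i h.mem.1
    have f3 : ¬ upF G s' (n + 1) (ln hL k) := fun hh => by
      obtain ⟨i, h⟩ := hup.1 hh
      exact hv i h.mem.1
    tauto

/-- The bottom legs. -/
theorem upF_N (h : EF N s s' G) (hN : 1 ≤ N) (j : Fin L) : upF G s' (N : ℤ) j ↔ ∃ k, s k = j := by
  unfold upF
  rw [if_neg (by omega)]
  constructor
  · rintro ⟨i, hi⟩
    rcases h.row hi.mem.1 with h1 | h1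
    · simp only at h1; omega
    · exact ⟨i, by simpa using (congrArg (fun z : CV L => z.2.1) h1).symm⟩
  · rintro ⟨i, rfl⟩
    refine ⟨i, Or.inl ?_⟩
    have hlen : 2 ≤ (G i).length := by
      by_contra hc
      have h1 := h.pos i
      have h2 : (G i)[(G i).length - 1]'(by omega) = (G i)[0]'h1 := by congr 1; omega
      rw [h.e1 i, h.e0 i] at h2
      have := congrArg Prod.fst h2
      simp only at this
      omega
    have hc := List.isChain_iff_getElem.1 (h.ch i) 0 (by omega)
    have h1 := h.rw i ((G i)[0 + 1]'(by omega)) (by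
      rw [List.mem_iff_getElem]
      exact ⟨0, by rw [List.length_tail]; omega, by rw [List.getElem_tail]⟩)
    have h2 : (G i)[0 + 1]'(by omega) = ((N : ℤ) - 1, s i, false) := by
      have hc' := hc
      rw [h.e0 i] at hc'
      rcases hc' with ⟨-, h3, h4 | h4 | h4⟩ | ⟨-, h3, h4⟩
      · simp only at h4; omega
      · simp only at h4; omega
      · exact Prod.ext h4.1 (Prod.ext h4.2 h3)
      · simp at h3
    rw [infix_pair_iff]
    exact ⟨0, by omega, h.e0 i, h2⟩

end

end Pool.Agent.CYL.H
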