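import Pool.Agent.QL.HistUp

/-!
# CYL, part D: decorated runs on any set of labels

`ln j` is the label of the line `j`; the other labels are open ends of strands (`oo_k`) which are not touched by the
rows. The decoration `d a` is the list of the vertices of the strand which ends in the label `a`, read from `a`.
-/

namespace Pool.Agent.CYL.H

open Pool.Agent.Hhelper14.SAW Pool.Agent.HHP Pool.Agent.BEX Pool.Agent.BEX.HistD Pool.Agent.QL
open scoped ENNReal

/-- The edges of the row `n` allowed by the choice `c`. -/
structure OkE {L : ℕ} (hL : 0 < L) (R : CV L → CV L → Prop) (n : ℤ) (c : Ch L) : Prop where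
  ru : ∀ j, c.2 j = true → R (n, j, true) (n, j, false)
  se : c.1 = true → R (n, ⟨L - 1, by omega⟩, false) (n, ⟨0, hL⟩, true)
  up : ∀ j, R (n, j, false) (n + 1, j, true)
  au : ∀ p q : Fin L, (q : ℕ) = (p : ℕ) + 1 → R (n, q, true) (n, p, false)

/-- The edges of all the rows. -/
def OkC {L : ℕ} (hL : 0 < L) (R : CV L → CV L → Prop) : List (Ch L) → Prop
  | [] => True
  | c :: cs => OkE hL R (cs.length : ℤ) c ∧ OkC hL R cs

/-- What the first vertex of a strand is: for a line the upper vertex of the row `n`. -/
def cuL {Λ : Type} {L : ℕ} (ln : Fin L → Λ) (cu : Λ → CV L → Prop) (n : ℤ) (a : Λ) (u : CV L) : Prop :=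
  (∀ j, a = ln j → u = (n, j, true)) ∧ ((∀ j, a ≠ ln j) → cu a u)

/-- Decorated states between the rows. -/
structure RJ {Λ : Type} [Fintype Λ] [DecidableEq Λ] {L : ℕ} (ln : Fin L → Λ) (cu : Λ → CV L → Prop)
    (R : CV L → CV L → Prop) (n : ℤ) (f : Λ → Λ) (d : Λ → List (CV L)) : Prop where
  dec : Dec (Rn R n) (cuL ln cu n) f d
  c2 : ∀ v, W (cn v) d ≤ 2
  fr : ∀ v : CV L, v.1 < n → W (cn v) d = 0
  ne : ∀ a, f a ≠ a → d a ≠ []

theorem run_dec {Λ : Type} [Fintype Λ] [DecidableEq Λ] {L : ℕ} (hL : 2 ≤ L) {ln : Fin L → Λ}
    (hln : Function.Injective ln) {cu : Λ → CV L → Prop} {R : CV L → CV L → Prop}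
    (hR : ∀ u v, R u v → R v u) (cs : List (Ch L)) (f : Λ → Λ) (d : Λ → List (CV L))
    (ok : OkC (by omega) R cs) (h : RJ ln cu R cs.length f d) :
    ∀ f' c, run ln cs f = some (f', c) → ∃ d', RJ ln cu R 0 f' d' ∧
      W (fun l : List (CV L) => l.length) d' = W (fun l : List (CV L) => l.length) d + 2 * c ∧ Per d d' ∧
      (∀ v : CV L, v.1 < 0 ∨ (cs.length : ℤ) ≤ v.1 → W (cn v) d' = W (cn v) d) ∧
      ∀ (i : ℕ) (e : Ch L), cs.reverse[i]? = some e →
        (∀ j, e.2 j = true → ∃ a, [((i : ℤ), j, true), ((i : ℤ), j, false)] <:+: d' a ∨
          [((i : ℤ), j, false), ((i : ℤ), j, true)] <:+: d' a) ∧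
        (e.1 = true → ∃ a, [((i : ℤ), (⟨L - 1, by omega⟩ : Fin L), false), ((i : ℤ), ⟨0, by omega⟩, true)] <:+: d' a ∨
          [((i : ℤ), (⟨0, by omega⟩ : Fin L), true), ((i : ℤ), ⟨L - 1, by omega⟩, false)] <:+: d' a) := by
  have hL0 : 0 < L := by omega
  have hRn : ∀ n, ∀ u v, Rn R n u v → Rn R n v u := fun n u v h => ⟨hR _ _ h.1, fun m hm e => h.2 m hm e.symm⟩
  induction cs generalizing f d with
  | nil =>
    intro f' c hf
    simp only [run, Option.some.injEq, Prod.mk.injEq] at hf
    obtain ⟨rfl, rfl⟩ := hf
    exact ⟨d, by simpa using h, by simp, Per.refl d, fun _ _ => rfl, by simp⟩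
  | cons c cs ih =>
    obtain ⟨k, k5⟩ := ok
    have hn : (((c :: cs).length : ℕ) : ℤ) = (cs.length : ℤ) + 1 := by simp
    rw [hn] at h
    set n : ℤ := (cs.length : ℤ) with hndef
    have hyp : HypR hL0 ln c.1 c.2 (fun j => (n, j, true)) (fun j => (n, j, false)) (Rn R (n + 1))
        (Rn R n) (cuL ln cu (n + 1)) f d := by
      refine ⟨h.dec, ?_, ?_, ?_, ?_, h.c2, ?_, ?_, ?_, ?_⟩
      · intro j u _ h2
        have h3 : u = (n + 1, j, true) := h2.1 j rfl
        subst h3
        refine ⟨k.up j, ?_⟩
        rintro m _ ⟨a1, a2, _⟩
        simp only at a1 a2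
        omega
      · intro j h1
        refine ⟨k.ru j h1, ?_⟩
        rintro m _ ⟨a1, a2, a3⟩
        simp only [reduceCtorEq, false_and, true_and, false_or] at a3
        omega
      · intro j h1 h2
        exact absurd h2 (h.ne _ h1)
      · apply Ok_of_chain
        refine (chain_fin L).imp ?_
        intro p q hpq
        refine ⟨k.au p q hpq, ?_⟩
        rintro m _ ⟨a1, a2, a3⟩
        simp only [reduceCtorEq, false_and, true_and, false_or] at a3
        omega
      · intro j
        exact h.fr (n, j, true) (by simp)
      · intro j
        exact h.fr (n, j, false) (by simp)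
      · intro h1
        refine ⟨k.se h1, ?_⟩
        rintro m hm ⟨a1, a2, _⟩
        simp only at a1 a2
        omega
      · rintro ⟨_, h1⟩
        exact h1 n (by omega) ⟨rfl, rfl, Or.inr ⟨rfl, rfl, rfl, rfl⟩⟩
    have hi1 : Function.Injective (fun j : Fin L => (n, j, true)) := by
      intro x y e
      simpa using e
    have hi2 : Function.Injective (fun j : Fin L => (n, j, false)) := by
      intro x y e
      simpa using e
    obtain ⟨-, r2⟩ := rowL_main hL0 hln (hRn (n + 1)) (hRn n)
      (fun u v h => ⟨h.1, fun m hm => h.2 m (by omega)⟩) hi1 hi2 (by simp) hyp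
    simp only [run, rowG_eq]
    rcases hrow : rowL ln c.1 c.2 f with _ | ⟨g, k'⟩
    · simp
    · obtain ⟨d1, D⟩ := r2 g k' hrow
      have hRI : RJ ln cu R n g d1 := by
        refine ⟨?_, D.c2, ?_, ?_⟩
        · refine D.dec.imp (fun _ _ => id) ?_
          rintro a u _ _ ⟨h1, h2⟩
          exact ⟨h1, fun h3 => (h2 h3).2 h3⟩
        · intro v hv
          refine (D.fr v ?_).trans (h.fr v (by omega))
          intro j
          constructor
          · rintro rfl
            simp at hv
          · rintro rfl
            simp at hv
        · intro a h1 h2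
          obtain ⟨e1, e2, _⟩ := D.em a h1 h2
          exact h.ne a e2 e1
      have i2 := ih g d1 k5 hRI
      intro f' c' h1
      simp only [Option.bind_some, Option.map_eq_some_iff, Prod.mk.injEq, Prod.exists] at h1
      obtain ⟨g', c1, h2, h3, h4⟩ := h1
      subst h3
      obtain ⟨d', e1, e2, e3, e4, e5⟩ := i2 g' c1 h2
      refine ⟨d', e1, ?_, D.per.trans e3, ?_, ?_⟩
      · rw [e2, D.len, ← h4]
        ring
      · intro v hv
        rw [hn] at hv
        refine (e4 v (by omega)).trans (D.fr v ?_)
        intro j
        constructor
        · rintro rfl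
          simp only at hv
          omega
        · rintro rfl
          simp only at hv
          omega
      · intro i e he
        rw [List.reverse_cons] at he
        rcases Nat.lt_or_ge i cs.length with hi | hi
        · rw [List.getElem?_append_left (by simpa using hi)] at he
          exact e5 i e he
        · rw [List.getElem?_append_right (by simpa using hi)] at he
          have hi2 : i = cs.length := by
            by_contra hne
            have : 1 ≤ i - cs.reverse.length := by simp; omega
            rw [List.getElem?_eq_none (by simpa using this)] at he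
            simp at he
          subst hi2
          simp only [List.length_reverse, Nat.sub_self, List.getElem?_cons_zero, Option.some.injEq] at he
          subst he
          constructor
          · intro j hj
            obtain ⟨a, ha⟩ := D.rn j hj
            obtain ⟨a', ha'⟩ := e3 a
            refine ⟨a', ?_⟩
            rcases ha with ha | ha
            · exact Or.inl (ha.trans ha')
            · exact Or.inr (ha.trans ha')
          · intro hj
            obtain ⟨a, ha⟩ := D.sm hj
            obtain ⟨a', ha'⟩ := e3 a
            refine ⟨a', ?_⟩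
            rcases ha with ha | ha
            · exact Or.inl (ha.trans ha')
            · exact Or.inr (ha.trans ha')

/-- All the edges allowed by the choices. -/
theorem okC_RR {L : ℕ} (hL : 2 ≤ L) (cs : List (Ch L)) (pre suf : List (Ch L)) (h : pre ++ suf = cs) :
    OkC (by omega) (RR cs) suf := by
  induction suf generalizing pre with
  | nil => trivial
  | cons c suf ih =>
    have key : ∀ (m : ℕ) (e : Ch L), (m : ℤ) = (suf.length : ℤ) → cs.reverse[m]? = some e → e = c := by
      intro m e hm he
      have hm' : m = suf.length := by exact_mod_cast hm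
      rw [← h, List.reverse_append, List.reverse_cons, List.append_assoc, hm',
        List.getElem?_append_right (by simp)] at he
      simpa using he.symm
    refine ⟨⟨?_, ?_, ?_, ?_⟩, ih (pre ++ [c]) (by simp [h])⟩
    · intro j hj
      refine ⟨Or.inl ⟨rfl, rfl, Or.inl ⟨rfl, rfl⟩⟩, ?_, ?_⟩
      · intro m e he
        constructor
        · intro p h1 _
          simp only [Prod.mk.injEq, and_true] at h1
          rw [key m e h1.1.symm he, ← h1.2]
          exact hj
        · intro p q _ _ h1
          simp at h1
      · intro m e he
        constructor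
        · intro p h1
          simp at h1
        · intro p q hp hq h1 h2
          simp only [Prod.mk.injEq, and_true] at h1 h2
          exfalso
          have h3 : p = q := h1.2.symm.trans h2.2
          rw [h3] at hp
          omega
    · intro hj
      refine ⟨Or.inr ⟨rfl, rfl, Or.inr (Or.inl ⟨rfl, md_last _ _ rfl rfl⟩)⟩, ?_, ?_⟩
      · intro m e he
        constructor
        · intro p h1
          simp at h1
        · intro p q _ _ h1 _
          simp only [Prod.mk.injEq, and_true] at h1
          rw [key m e h1.1.symm he]
          exact hj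
      · intro m e he
        constructor
        · intro p h1 h2
          simp only [Prod.mk.injEq, and_true] at h1 h2
          exfalso
          have h3 := h1.2.trans h2.2.symm
          have := congrArg Fin.val h3
          simp only at this
          omega
        · intro p q _ _ h1
          simp at h1
    · intro j
      refine ⟨Or.inr ⟨rfl, rfl, Or.inr (Or.inr ⟨by simp, rfl⟩)⟩, ?_, ?_⟩
      · intro m e he
        constructor
        · intro p h1
          simp at h1
        · intro p q _ _ h1 h2
          simp only [Prod.mk.injEq, and_true] at h1 h2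
          omega
      · intro m e he
        constructor
        · intro p h1 h2
          simp only [Prod.mk.injEq, and_true] at h1 h2
          omega
        · intro p q _ _ h1
          simp at h1
    · intro p q hpq
      refine ⟨Or.inl ⟨rfl, rfl, Or.inr (Or.inl ⟨rfl, md_one _ _ hpq⟩)⟩, ?_, ?_⟩
      · intro m e he
        constructor
        · intro x h1 h2
          simp only [Prod.mk.injEq, and_true] at h1 h2
          exfalso
          have h3 := congrArg Fin.val (h1.2.trans h2.2.symm)
          omega
        · intro x y _ _ h1
          simp at h1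
      · intro m e he
        constructor
        · intro x h1
          simp at h1
        · intro x y hx hy h1 h2
          simp only [Prod.mk.injEq, and_true] at h1 h2
          exfalso
          have h3 := congrArg Fin.val h2.2
          omega

end Pool.Agent.CYL.H
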