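import Pool.Agent.CYL.D.H.Row

/-!
# CYL, part D: a whole row and a whole run, for the choices given by a system of crossing paths
-/

namespace Pool.Agent.CYL.H

open Pool.Agent.BEX Pool.Agent.QL Pool.Agent.QL.HL

variable {L l N : ℕ} {s s' : Fin l → Fin L} {G : Fin l → List (CV L)}

open Classical in
/-- All the crossings of a row. -/
theorem RI_hops (hL : 2 ≤ L) (hG : EF N s s' G) {n : ℤ} (hn : 0 ≤ n) (hnN : n < N) : ∀ (m k : ℕ), k + m = L →
    ∀ {g : (Fin L ⊕ Fin l) ⊕ Bool → (Fin L ⊕ Fin l) ⊕ Bool} {D : (Fin L ⊕ Fin l) ⊕ Bool → List (CV L)},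
    RI hL N s s' G n k g D →
    ∃ g' c' D', hops (Sum.inr true) (((List.finRange L).drop k).map fun j => (decide (ruF G n j), LL l j)) g =
        some (g', c') ∧ RI hL N s s' G n L g' D' ∧ tot D' = tot D + 2 * c' := by
  intro m
  induction m with
  | zero =>
    intro k hk g D h
    have hk' : k = L := by omega
    subst hk'
    refine ⟨g, 0, D, ?_, h, rfl⟩
    rw [List.drop_eq_nil_of_le (by simp)]
    rfl
  | succ m ih =>
    intro k hk g D h
    have hkL : k < L := by omega
    obtain ⟨g1, c1, D1, h1, h2, h3⟩ := RI_step hL hG hn hnN hkL h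
    obtain ⟨g2, c2, D2, h4, h5, h6⟩ := ih (k + 1) (by omega) h2
    refine ⟨g2, c1 + c2, D2, ?_, h5, by rw [h6, h3]; ring⟩
    have hd : (List.finRange L).drop k = ln hL k :: (List.finRange L).drop (k + 1) := by
      rw [List.drop_eq_getElem_cons (by simpa using hkL)]
      congr 1
      rw [List.getElem_finRange]
      apply Fin.ext
      simp [ln_lt hL hkL]
    rw [hd, List.map_cons, hops, h1]
    simp only [Option.bind_some]
    rw [h4]
    rfl

/-- The invariant between two rows: the legs are the upper edges of the row `n`. -/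
structure LI (N : ℕ) (s s' : Fin l → Fin L) (G : Fin l → List (CV L)) (n : ℤ)
    (f : Fin L ⊕ Fin l → Fin L ⊕ Fin l) (d : Fin L ⊕ Fin l → List (CV L)) : Prop where
  dec : Deco (NF G) f d
  occ : ∀ j, f (Sum.inl j) ≠ Sum.inl j ↔ upF G s' n j
  hd : ∀ j, f (Sum.inl j) ≠ Sum.inl j → (d (Sum.inl j)).head? = some (n, j, true)
  rw : ∀ a, ∀ v ∈ d a, n ≤ v.1
  occo : ∀ i, f (Sum.inr i) ≠ Sum.inr i
  hdo : ∀ i, (d (Sum.inr i)).head? = some ((N : ℤ), s i, true)

open Classical in
/-- The choices of the row `n`. -/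
noncomputable def cho (hL : 2 ≤ L) (G : Fin l → List (CV L)) (n : ℤ) : Ch L :=
  (decide (auF hL G n 0), fun j => decide (ruF G n j))

theorem sum_map_inv {Λ : Type} {f : Λ → Λ} (h : ∀ a, f (f a) = a) (x : Λ ⊕ Bool) :
    Sum.map f id (Sum.map f id x) = x := by
  rcases x with x | x
  · simp [h]
  · rfl

/-- The start of a row. -/
theorem RI_zero (hL : 2 ≤ L) (n : ℤ)
    {f : Fin L ⊕ Fin l → Fin L ⊕ Fin l} {d : Fin L ⊕ Fin l → List (CV L)} (h : LI N s s' G (n + 1) f d) :
    ∃ D, RI hL N s s' G n 0 (if (cho hL G n).1 = true then ar (Sum.inr false) (Sum.inr true) (Sum.map f id)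
      else Sum.map f id) D ∧ tot D = tot d := by
  let D : (Fin L ⊕ Fin l) ⊕ Bool → List (CV L) := fun x => match x with
    | Sum.inl j => d j
    | Sum.inr _ => []
  have hDl : ∀ j, D (Sum.inl j) = d j := fun _ => rfl
  have hDr : ∀ c, D (Sum.inr c) = [] := fun _ => rfl
  have hrows : ∀ x, ∀ v ∈ D x, n + 1 ≤ v.1 := by
    intro x v hv
    rcases x with j | c
    · exact h.rw j v hv
    · rw [hDr c] at hv; simp at hv
  have hb : Deco (Rr hL G n) (Sum.map f id) D := by
    refine ⟨sum_map_inv h.dec.iv, ?_, ?_, ?_, ?_, ?_⟩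
    · rintro (j | c)
      · exact h.dec.rv j
      · rfl
    · rintro (j | c) hj
      · exact h.dec.em j (Sum.inl.inj hj)
      · rfl
    · rintro (j | c)
      · exact h.dec.nd j
      · exact List.nodup_nil
    · rintro (i | c) (j | c') h1 h2 v hv
      · exact h.dec.dj i j (fun e => h1 (by rw [e])) (fun e => h2 (by rw [e]; rfl)) v hv
      · rw [hDr c']; simp
      · rw [hDr c] at hv; simp at hv
      · rw [hDr c']; simp
    · rintro (j | c)
      · have h1 := h.dec.ch j
        rw [List.isChain_iff_getElem] at h1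
        show (d j).IsChain _
        rw [List.isChain_iff_getElem]
        intro i hi
        refine ⟨h1 i hi, ?_, ?_⟩
        · rintro ⟨e, -⟩
          have h2 := h.rw j _ (List.getElem_mem (show i < (d j).length by omega))
          rw [e] at h2
          simp only at h2
          omega
        · rintro ⟨e, -⟩
          have h2 := h.rw j _ (List.getElem_mem hi)
          rw [e] at h2
          simp only at h2
          omega
      · show ([] : List (CV L)).IsChain _
        simp
  have htot : tot D = tot d := by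
    unfold tot
    rw [Fintype.sum_sum_type]
    simp [hDl, hDr]
  have hocc : ∀ j, ((Sum.map f id : (Fin L ⊕ Fin l) ⊕ Bool → (Fin L ⊕ Fin l) ⊕ Bool) (LL l j) ≠ LL l j ↔
      upF G s' (n + 1) j) := by
    intro j
    rw [← h.occ j]
    show Sum.inl (f (Sum.inl j)) ≠ (Sum.inl (Sum.inl j) : (Fin L ⊕ Fin l) ⊕ Bool) ↔ _
    rw [Ne, Sum.inl_injective.eq_iff]
  refine ⟨D, ?_, htot⟩
  by_cases hq : (cho hL G n).1 = true
  · rw [if_pos hq]
    have hau : auF hL G n 0 := by simpa [cho] using hq
    have hd' := hb.ar (Rr_symm hL n) (a := Sum.inr false) (b := Sum.inr true) (by simp) rfl rfl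
      (w := []) List.nodup_nil (by simp) (by simp)
    have hDD : arD (Sum.inr false) (Sum.inr true) [] D = D := by
      funext x
      unfold arD
      split_ifs with h1 h2
      · rw [h1, hDr false]
      · rw [h2, hDr true]; rfl
      · rfl
    rw [hDD] at hd'
    have vo : ∀ a, ar (Sum.inr false) (Sum.inr true) (Sum.map f id) (Sum.inl a : (Fin L ⊕ Fin l) ⊕ Bool) =
        Sum.map f id (Sum.inl a) := fun a => by simp [ar]
    have va : ar (Sum.inr false) (Sum.inr true) (Sum.map f id) (Sum.inr false : (Fin L ⊕ Fin l) ⊕ Bool) =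
        Sum.inr true := by simp [ar]
    have vb : ar (Sum.inr false) (Sum.inr true) (Sum.map f id) (Sum.inr true : (Fin L ⊕ Fin l) ⊕ Bool) =
        Sum.inr false := by simp [ar]
    refine ⟨hd', ?_, ?_, ?_, ?_, ?_, ?_, ?_, ?_, ?_, ?_, ?_, ?_⟩
    · intro j hj; omega
    · intro j _; rw [vo]; exact hocc j
    · intro j hj; omega
    · intro j _ h1
      rw [vo, hocc, ← h.occ] at h1
      exact h.hd j h1
    · rw [vb]; simp [hau]
    · rw [va]; simp [hau]
    · intro _ _; exact ⟨vb, rfl⟩
    · intro h0; omega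
    · intro h0; omega
    · intro x v hv; exact Or.inl (hrows x v hv)
    · intro i
      rw [vo]
      intro e
      exact h.occo i (Sum.inl.inj e)
    · intro i
      exact h.hdo i
  · rw [if_neg hq]
    have hau : ¬ auF hL G n 0 := by simpa [cho] using hq
    refine ⟨hb, ?_, ?_, ?_, ?_, ?_, ?_, ?_, ?_, ?_, ?_, ?_, ?_⟩
    · intro j hj; omega
    · intro j _; exact hocc j
    · intro j hj; omega
    · intro j _ h1
      rw [hocc, ← h.occ] at h1
      exact h.hd j h1
    · simp [hau]
    · simp [hau]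
    · intro _ h1; simp at h1
    · intro h0; omega
    · intro h0; omega
    · intro x v hv; exact Or.inl (hrows x v hv)
    · intro i e
      exact h.occo i (Sum.inl.inj e)
    · intro i
      exact h.hdo i

/-- Restriction to the lines and the open ends. -/
theorem rst_okG {Λ : Type} [Fintype Λ] [DecidableEq Λ] {V : Type*} {R : V → V → Prop} {g : Λ ⊕ Bool → Λ ⊕ Bool}
    {D : Λ ⊕ Bool → List V} (h : Deco R g D) (hb : ∀ c, g (Sum.inr c) = Sum.inr c) :
    Deco R (HistD.rs g) (fun j => D (Sum.inl j)) ∧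
      tot (fun j : Λ => D (Sum.inl j)) = tot D ∧
      ∀ j, HistD.rs g j ≠ j ↔ g (Sum.inl j) ≠ Sum.inl j := by
  have key2 : ∀ j, g (Sum.inl j) = Sum.inl (HistD.rs g j) := HistD.rs_eq h.iv hb
  refine ⟨⟨?_, ?_, ?_, fun j => h.nd _, ?_, fun j => h.ch _⟩, ?_, ?_⟩
  · intro j
    have h1 := h.iv (Sum.inl j)
    rw [key2 j, key2] at h1
    exact Sum.inl.inj h1
  · intro j
    show D (Sum.inl (HistD.rs g j)) = (D (Sum.inl j)).reverse
    rw [← key2 j]
    exact h.rv _
  · intro j hj
    refine h.em _ ?_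
    rw [key2 j]
    exact congrArg Sum.inl hj
  · intro i j h1 h2 v hv
    refine h.dj (Sum.inl i) (Sum.inl j) (fun e => h1 (Sum.inl.inj e)) (fun e => h2 ?_) v hv
    rw [key2 i] at e
    exact Sum.inl.inj e
  · unfold tot
    rw [Fintype.sum_sum_type]
    have h1 : ∀ c : Bool, D (Sum.inr c) = [] := fun c => h.em _ (hb c)
    simp [h1]
  · intro j
    rw [key2 j, Ne, Ne, Sum.inl_injective.eq_iff]

/-- A whole row. -/
theorem row_ok (hL : 2 ≤ L) (hG : EF N s s' G) {n : ℤ} (hn : 0 ≤ n) (hnN : n < N)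
    {f : Fin L ⊕ Fin l → Fin L ⊕ Fin l} {d : Fin L ⊕ Fin l → List (CV L)} (h : LI N s s' G (n + 1) f d) :
    ∃ f' c' d', rowG (Sum.inl : Fin L → Fin L ⊕ Fin l) (cho hL G n) f = some (f', c') ∧ LI N s s' G n f' d' ∧
      tot d' = tot d + 2 * c' := by
  obtain ⟨D, h1, h2⟩ := RI_zero hL n h
  obtain ⟨g, c, D1, h3, h4, h5⟩ := RI_hops hL hG hn hnN L 0 (by omega) h1
  rw [List.drop_zero] at h3
  have hau : auF hL G n L ↔ auF hL G n 0 := auF_L hL n
  have hoccab : g (Sum.inr false) ≠ Sum.inr false ↔ g (Sum.inr true) ≠ Sum.inr true := by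
    rw [h4.occa, h4.occb, hau]
  have hlp0 : HL.lp hL 0 = ln hL (L - 1) := by unfold HL.lp; rw [Nat.zero_add]
  have hdec : Deco (NF G) g D1 := h4.dec.mono fun a u _ v _ hR => hR.1
  have hne : g (Sum.inr false) ≠ Sum.inr false → g (Sum.inr false) ≠ Sum.inr true := by
    intro ha e
    have hb := hoccab.1 ha
    have hA := h4.occa.1 ha
    have e' : g (Sum.inr true) = Sum.inr false := by rw [← e, h4.dec.iv]
    have hhead := h4.hbp (by omega) hb
    have hlast : (D1 (Sum.inr true)).getLast? = some (n, ln hL 0, true) := by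
      have h6 := h4.hap (by omega) ha
      rw [← e', h4.dec.rv, List.head?_reverse] at h6
      exact h6
    have hnn : D1 (Sum.inr true) ≠ [] := ne_nil_of_head hhead
    have hpos : 0 < (D1 (Sum.inr true)).length := List.length_pos_iff.2 hnn
    have e0 : (D1 (Sum.inr true))[0] = (n, ln hL (L - 1), false) := by
      rw [List.head?_eq_getElem?, List.getElem?_eq_getElem hpos] at hhead
      exact Option.some.inj hhead
    have e1 : (D1 (Sum.inr true))[(D1 (Sum.inr true)).length - 1]'(by omega) = (n, ln hL 0, true) := by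
      rw [List.getLast?_eq_getElem?, List.getElem?_eq_getElem (by omega)] at hlast
      exact Option.some.inj hlast
    rcases Nat.lt_or_ge (D1 (Sum.inr true)).length 3 with hlt | hge
    · have hch := List.isChain_iff_getElem.1 (h4.dec.ch (Sum.inr true))
      rcases Nat.lt_or_ge (D1 (Sum.inr true)).length 2 with hlt2 | hge2
      · have h6 : (D1 (Sum.inr true))[(D1 (Sum.inr true)).length - 1]'(by omega) =
            (D1 (Sum.inr true))[0] := by congr 1; omega
        rw [e0, e1] at h6
        simpa using congrArg (fun z : CV L => z.2.2) h6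
      · have h6 := hch 0 (by omega)
        have h7 : (D1 (Sum.inr true))[0 + 1]'(by omega) = (n, ln hL 0, true) := by
          rw [← e1]; congr 1; omega
        rw [e0, h7] at h6
        apply h6.2.1
        rw [hlp0]
        exact ⟨rfl, rfl⟩
    · refine no_cycleF hG (h4.dec.nd (Sum.inr true)) hge (hdec.ch _) ?_
      rw [e0, e1]
      have h6 := hA
      unfold auF at h6
      rw [hlp0] at h6
      exact h6.symm
  have hr : g (Sum.inr false) ≠ Sum.inr false → ∀ u v, (D1 (Sum.inr false)).head? = some u →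
      (D1 (Sum.inr true)).head? = some v → NF G u v := by
    intro ha u v hu hv
    have hb := hoccab.1 ha
    have hA := h4.occa.1 ha
    rw [h4.hap (by omega) ha, Option.some.injEq] at hu
    rw [h4.hbp (by omega) hb, Option.some.injEq] at hv
    subst hu hv
    unfold auF at hA
    rw [hlp0] at hA
    exact hA.symm
  obtain ⟨g', D', k1, k2, k3, k4, k5, k6, k7, k8⟩ := cap_ok (fun _ _ hh => NF.symm hh) hdec
    (a := Sum.inr false) (b := Sum.inr true) (by simp) hoccab hne hr
  obtain ⟨m1, m2, m3⟩ := rst_okG k2 (fun c => by cases c <;> assumption)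
  refine ⟨HistD.rs g', c, fun j => D' (Sum.inl j), ?_, ⟨m1, ?_, ?_, ?_, ?_, ?_⟩, ?_⟩
  · rw [rowG_eq]
    unfold HistD.rowL HistD.st
    have h6 : hops (Sum.inr true) ((List.finRange L).map fun j => ((cho hL G n).2 j,
          (Sum.inl (Sum.inl j) : (Fin L ⊕ Fin l) ⊕ Bool)))
        (if (cho hL G n).1 = true then ar (Sum.inr false) (Sum.inr true) (Sum.map f id) else Sum.map f id) =
        some (g, c) := h3
    simp only [h6, Option.bind_some, k1, Option.map_some]
  · intro j
    rw [m3 (Sum.inl j), k6 _ (by simp) (by simp)]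
    exact h4.occ1 j j.2
  · intro j hj
    have h6 : g' (Sum.inl (Sum.inl j)) ≠ Sum.inl (Sum.inl j) := (m3 (Sum.inl j)).1 hj
    rw [k6 _ (by simp) (by simp)] at h6
    have h7 := h4.hd1 j j.2 h6
    show (D' (Sum.inl (Sum.inl j))).head? = _
    rw [k7 _ (by simp) (by simp) (ne_nil_of_head h7)]
    exact h7
  · intro j v hv
    obtain ⟨y, hy⟩ := k8 _ v hv
    rcases h4.fresh y v hy with h6 | ⟨h6, -⟩
    · omega
    · omega
  · intro i
    rw [m3 (Sum.inr i), k6 _ (by simp) (by simp)]
    exact h4.occo i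
  · intro i
    have h7 := h4.hdo i
    show (D' (Sum.inl (Sum.inr i))).head? = _
    rw [k7 _ (by simp) (by simp) (ne_nil_of_head h7)]
    exact h7
  · rw [m2, k3, h5, h2]

/-- The choices of all the rows, the lowest row first. -/
noncomputable def csl (hL : 2 ≤ L) (G : Fin l → List (CV L)) : ℕ → List (Ch L)
  | 0 => []
  | n + 1 => cho hL G n :: csl hL G n

theorem csl_length (hL : 2 ≤ L) (G : Fin l → List (CV L)) (n : ℕ) : (csl hL G n).length = n := by
  induction n with
  | zero => rfl
  | succ n ih => simp [csl, ih]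

/-- A whole run. -/
theorem run_ok (hL : 2 ≤ L) (hG : EF N s s' G) (n : ℕ) (hnN : n ≤ N)
    {f : Fin L ⊕ Fin l → Fin L ⊕ Fin l} {d : Fin L ⊕ Fin l → List (CV L)} (h : LI N s s' G n f d) :
    ∃ f' c' d', run (Sum.inl : Fin L → Fin L ⊕ Fin l) (csl hL G n) f = some (f', c') ∧ LI N s s' G 0 f' d' ∧
      tot d' = tot d + 2 * c' := by
  induction n generalizing f d with
  | zero => exact ⟨f, 0, d, rfl, h, rfl⟩
  | succ n ih =>
    obtain ⟨f1, c1, d1, h1, h2, h3⟩ := row_ok hL hG (n := n) (by omega) (by omega) (by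
      have e : ((n + 1 : ℕ) : ℤ) = (n : ℤ) + 1 := by push_cast; ring
      rw [e] at h
      exact h)
    obtain ⟨f2, c2, d2, h4, h5, h6⟩ := ih (by omega) h2
    refine ⟨f2, c1 + c2, d2, ?_, h5, by rw [h6, h3]; ring⟩
    rw [csl, run, h1]
    simp only [Option.bind_some]
    rw [h4]
    rfl

end Pool.Agent.CYL.H
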